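import Pool.Agent.K7.H80.EC.Stm

set_option autoImplicit false

/-!
# Project EC, job ASYL
-/

namespace Pool.Agent.K7.H78.ECASYL

open Pool.Agent.K7.H80.EC Filter

theorem core (d K : ℕ) (L e : ℝ) (he0 : 0 < e) (he : e ≤ 1 / 2) (hL : 1 ≤ L)
    (hd : (d : ℝ) = (2:ℝ) ^ L) (hK : (K : ℝ) ≤ (1 - e) * L)
    (h1 : 16 * L * (L + 4) ≤ (2:ℝ) ^ (e * L)) (h2 : 3 * (L + 4) ≤ (2:ℝ) ^ L) :
    (2:ℝ) ^ ((d:ℝ) / 2) ≤ (2 : ℝ) ^ (d - K) /
      ((3 * d * ((K + 4) * 2 ^ K) : ℝ) ^ ((K + 4) * 2 ^ K)) := by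
  have two : (1:ℝ) < 2 := by norm_num
  have hKL : (K:ℝ) ≤ L := by nlinarith
  have hM : ((K:ℝ) + 4) * 2 ^ K ≤ (L + 4) * (2:ℝ) ^ ((1 - e) * L) := by
    have h3 : (2:ℝ) ^ K ≤ (2:ℝ) ^ ((1 - e) * L) := by
      rw [← Real.rpow_natCast]
      exact Real.rpow_le_rpow_of_exponent_le two.le hK
    exact mul_le_mul (by linarith) h3 (by positivity) (by linarith)
  have hpos : (0:ℝ) < 2 ^ ((1 - e) * L) := Real.rpow_pos_of_pos (by norm_num) _
  have hposL : (0:ℝ) < 2 ^ L := Real.rpow_pos_of_pos (by norm_num) _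
  have hdpos : (0:ℝ) < d := by rw [hd]; exact hposL
  have hden : 3 * (d:ℝ) * ((K + 4) * 2 ^ K) ≤ (2:ℝ) ^ (4 * L) := by
    have h4 : (2:ℝ) ^ ((1 - e) * L) ≤ (2:ℝ) ^ L :=
      Real.rpow_le_rpow_of_exponent_le two.le (by nlinarith)
    have h5 : (2:ℝ) ^ (4 * L) = 2 ^ L * 2 ^ L * 2 ^ L * 2 ^ L := by
      rw [← Real.rpow_add (by norm_num), ← Real.rpow_add (by norm_num),
        ← Real.rpow_add (by norm_num)]
      congr 1
      ring
    have h6 : (1:ℝ) ≤ 2 ^ L := Real.one_le_rpow two.le (by linarith)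
    calc 3 * (d:ℝ) * ((K + 4) * 2 ^ K) ≤ 3 * d * ((L + 4) * (2:ℝ) ^ ((1 - e) * L)) :=
          mul_le_mul_of_nonneg_left hM (by positivity)
      _ ≤ 3 * d * ((L + 4) * (2:ℝ) ^ L) :=
          mul_le_mul_of_nonneg_left (mul_le_mul_of_nonneg_left h4 (by linarith)) (by positivity)
      _ = (3 * (L + 4)) * (2 ^ L * 2 ^ L) := by rw [hd]; ring
      _ ≤ 2 ^ L * (2 ^ L * 2 ^ L) := mul_le_mul_of_nonneg_right h2 (by positivity)
      _ = 2 ^ L * 2 ^ L * 2 ^ L * 1 := by ring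
      _ ≤ 2 ^ L * 2 ^ L * 2 ^ L * 2 ^ L := mul_le_mul_of_nonneg_left h6 (by positivity)
      _ = _ := h5.symm
  have hexp : 4 * L * (((K:ℝ) + 4) * 2 ^ K) ≤ d / 4 := by
    have h7 : (2:ℝ) ^ L = 2 ^ (e * L) * 2 ^ ((1 - e) * L) := by
      rw [← Real.rpow_add (by norm_num)]
      congr 1
      ring
    calc 4 * L * (((K:ℝ) + 4) * 2 ^ K) ≤ 4 * L * ((L + 4) * (2:ℝ) ^ ((1 - e) * L)) :=
          mul_le_mul_of_nonneg_left hM (by linarith)
      _ = (16 * L * (L + 4)) * (2:ℝ) ^ ((1 - e) * L) / 4 := by ring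
      _ ≤ 2 ^ (e * L) * (2:ℝ) ^ ((1 - e) * L) / 4 := by
          have := mul_le_mul_of_nonneg_right h1 hpos.le
          linarith
      _ = d / 4 := by rw [← h7, hd]
  have hLd : L ≤ d / 4 := by
    have h8 : (2:ℝ) ^ (e * L) ≤ (2:ℝ) ^ L :=
      Real.rpow_le_rpow_of_exponent_le two.le (by nlinarith)
    rw [← hd] at h8
    nlinarith
  have hKd : K ≤ d := by
    have : (K:ℝ) ≤ d := by linarith
    exact_mod_cast this
  have hpow : ((3 * d * ((K + 4) * 2 ^ K) : ℝ) ^ ((K + 4) * 2 ^ K)) ≤ (2:ℝ) ^ ((d:ℝ) / 4) := by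
    have hb : (0:ℝ) ≤ 3 * (d:ℝ) * ((K + 4) * 2 ^ K) := by positivity
    calc ((3 * d * ((K + 4) * 2 ^ K) : ℝ) ^ ((K + 4) * 2 ^ K))
        ≤ ((2:ℝ) ^ (4 * L)) ^ ((K + 4) * 2 ^ K) := pow_le_pow_left₀ hb hden _
      _ = (2:ℝ) ^ (4 * L * (((K:ℝ) + 4) * 2 ^ K)) := by
          rw [← Real.rpow_natCast, ← Real.rpow_mul (by norm_num)]
          congr 1
          push_cast
          ring
      _ ≤ _ := Real.rpow_le_rpow_of_exponent_le two.le hexp
  have hdenpos : (0:ℝ) < ((3 * d * ((K + 4) * 2 ^ K) : ℝ) ^ ((K + 4) * 2 ^ K)) := by positivity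
  rw [le_div_iff₀ hdenpos]
  calc (2:ℝ) ^ ((d:ℝ) / 2) * ((3 * d * ((K + 4) * 2 ^ K) : ℝ) ^ ((K + 4) * 2 ^ K))
      ≤ (2:ℝ) ^ ((d:ℝ) / 2) * (2:ℝ) ^ ((d:ℝ) / 4) :=
        mul_le_mul_of_nonneg_left hpow (by positivity)
    _ = (2:ℝ) ^ ((d:ℝ) / 2 + d / 4) := (Real.rpow_add (by norm_num) _ _).symm
    _ ≤ (2:ℝ) ^ (((d - K : ℕ) : ℝ)) := by
        refine Real.rpow_le_rpow_of_exponent_le two.le ?_
        rw [Nat.cast_sub hKd]
        linarith
    _ = _ := Real.rpow_natCast _ _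

theorem ev (b c : ℝ) (hb : 0 < b) (hc : 0 < c) : ∀ᶠ x : ℝ in atTop, c * x ^ 2 ≤ (2:ℝ) ^ (b * x) := by
  have hl : 0 < Real.log 2 * b := mul_pos (Real.log_pos (by norm_num)) hb
  have h := (isLittleO_pow_exp_pos_mul_atTop (k := 2) hl).bound (show (0:ℝ) < 1 / c by positivity)
  filter_upwards [h] with x hx
  rw [Real.norm_of_nonneg (by positivity), Real.norm_of_nonneg (Real.exp_pos _).le] at hx
  have h2 : (2:ℝ) ^ (b * x) = Real.exp (Real.log 2 * b * x) := by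
    rw [Real.rpow_def_of_pos (by norm_num)]
    congr 1
    ring
  rw [h2]
  have h3 := mul_le_mul_of_nonneg_left hx hc.le
  calc c * x ^ 2 ≤ c * (1 / c * Real.exp (Real.log 2 * b * x)) := h3
    _ = _ := by field_simp

theorem t : StAsyL := by
  intro ε hε k hk
  set e : ℝ := min ε (1 / 2) with hedef
  have he0 : 0 < e := lt_min hε (by norm_num)
  have he : e ≤ 1 / 2 := min_le_right _ _
  have heε : e ≤ ε := min_le_left _ _
  have hlog : Tendsto (fun d : ℕ => Real.logb 2 (d:ℝ)) atTop atTop :=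
    (Real.tendsto_logb_atTop (by norm_num)).comp tendsto_natCast_atTop_atTop
  have hmain : ∀ᶠ d : ℕ in atTop, (2:ℝ) ^ ((d:ℝ) / 2) ≤ (2 : ℝ) ^ (d - k d) /
      ((3 * d * ((k d + 4) * 2 ^ k d) : ℝ) ^ ((k d + 4) * 2 ^ k d)) := by
    have e1 := hlog.eventually (ev e 80 he0 (by norm_num))
    have e2 := hlog.eventually (ev 1 15 one_pos (by norm_num))
    have e3 := hlog.eventually (eventually_ge_atTop (1:ℝ))
    filter_upwards [e1, e2, e3, hk, eventually_ge_atTop 1] with d h1 h2 h3 h4 h5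
    have hdpos : (0:ℝ) < d := by exact_mod_cast h5
    set L := Real.logb 2 (d:ℝ) with hLdef
    refine core d (k d) L e he0 he h3 ?_ ?_ ?_ ?_
    · rw [hLdef, Real.rpow_logb (by norm_num) (by norm_num) hdpos]
    · refine h4.trans (mul_le_mul_of_nonneg_right (by linarith) (by linarith))
    · refine le_trans ?_ h1
      nlinarith
    · rw [one_mul] at h2
      refine le_trans ?_ h2
      nlinarith
  refine tendsto_atTop_mono' atTop hmain ?_
  have h6 : Tendsto (fun x : ℝ => (2:ℝ) ^ x) atTop atTop := tendsto_rpow_atTop_of_base_gt_one 2 (by norm_num)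
  exact h6.comp (tendsto_natCast_atTop_atTop.atTop_div_const (by norm_num))

end Pool.Agent.K7.H78.ECASYL
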