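import Pool.Agent.K7.H87.EX.Stm2

set_option autoImplicit false

/-!
# Project EX2, job FSP: finitely generated soluble periodic groups are finite
-/

namespace Pool.Agent.K7.H78.EXFSP

open Pool.Agent.K7.H87.EX

theorem step {Γ : Type} [Group Γ] (hfg : Group.FG Γ) (ht : ∀ x : Γ, IsOfFinOrder x)
    (H : Subgroup Γ) (hH : H.FiniteIndex) : (⁅H, H⁆ : Subgroup Γ).FiniteIndex := by
  have hHfg : Group.FG H := Subgroup.fg_of_index_ne_zero H
  have h1 : Group.FG (Abelianization H) := by
    unfold Abelianization
    infer_instance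
  have h2 : ∀ x : Abelianization H, IsOfFinOrder x := by
    intro x
    obtain ⟨y, rfl⟩ := QuotientGroup.mk_surjective x
    obtain ⟨m, hm, hy⟩ := (isOfFinOrder_iff_pow_eq_one).1 (ht (y : Γ))
    have hy' : y ^ m = 1 := Subtype.ext (by rw [Subgroup.coe_pow, hy, Subgroup.coe_one])
    refine (isOfFinOrder_iff_pow_eq_one).2 ⟨m, hm, ?_⟩
    show (Abelianization.of y) ^ m = 1
    rw [← map_pow, hy', map_one]
  have h4 : Finite (Abelianization H) := CommGroup.finite_of_fg_isMulTorsion _ h2
  have h5 : (commutator H).index ≠ 0 := by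
    rw [Subgroup.index_ne_zero_iff_finite]
    exact h4
  refine ⟨?_⟩
  rw [← Subgroup.map_subtype_commutator, Subgroup.index_map_subtype]
  exact mul_ne_zero h5 hH.index_ne_zero

theorem t : StFsp := by
  intro Γ _ hs hfg ht
  obtain ⟨n, hn⟩ := (Group.isSolvable_def Γ).1 hs
  have key : ∀ k : ℕ, (derivedSeries Γ k).FiniteIndex := by
    intro k
    induction k with
    | zero =>
      rw [derivedSeries_zero]
      infer_instance
    | succ k ih =>
      rw [derivedSeries_succ]
      exact step hfg ht _ ih
  have h1 := key n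
  rw [hn] at h1
  have h2 := h1.index_ne_zero
  rw [Subgroup.index_bot] at h2
  exact Nat.finite_of_card_ne_zero h2

end Pool.Agent.K7.H78.EXFSP
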