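import Pool.Agent.K7.H80.MD.Stm

set_option autoImplicit false

/-!
# Project MD, job DC: distance-two counts versus 2-walks
-/

namespace Pool.Agent.K7.H78.MDDC

open Pool.Agent.K7.H80.MD Finset

open Classical in
/-- the 2-walks from `v` to `W` -/
noncomputable def PP {n : ℕ} (G : SimpleGraph (Fin n)) (W : Finset (Fin n)) (v : Fin n) :
    Finset (Fin n × Fin n) :=
  univ.filter fun q => G.Adj v q.1 ∧ q.2 ∈ W ∧ G.Adj q.1 q.2

theorem mem_PP {n : ℕ} (G : SimpleGraph (Fin n)) (W : Finset (Fin n)) (v : Fin n)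
    (q : Fin n × Fin n) : q ∈ PP G W v ↔ G.Adj v q.1 ∧ q.2 ∈ W ∧ G.Adj q.1 q.2 := by
  classical
  unfold PP
  rw [Finset.mem_filter]
  exact ⟨fun h => h.2, fun h => ⟨Finset.mem_univ _, h⟩⟩

theorem walk2_eq {n : ℕ} (G : SimpleGraph (Fin n)) (W : Finset (Fin n)) (v : Fin n) :
    walk2 G W v = (PP G W v).card := by
  classical
  unfold walk2
  rw [Finset.card_eq_sum_card_fiberwise (f := Prod.fst) (s := PP G W v)
    (t := univ.filter fun u => G.Adj v u) (by
      intro q hq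
      have h := (mem_PP G W v q).1 hq
      simp only [Finset.coe_filter, Finset.mem_univ, true_and]
      exact h.1)]
  refine Finset.sum_congr (by congr!) fun u hu => ?_
  have hu' : G.Adj v u := (Finset.mem_filter.1 hu).2
  unfold nbr
  refine Finset.card_bij (fun w _ => (u, w)) ?_ ?_ ?_
  · intro w hw
    rw [Finset.mem_filter] at hw ⊢
    exact ⟨(mem_PP G W v _).2 ⟨hu', hw.1, hw.2⟩, rfl⟩
  · intro w _ w' _ h
    exact congrArg Prod.snd h
  · rintro ⟨a, w⟩ hq
    rw [Finset.mem_filter] at hq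
    obtain ⟨h1, h2⟩ := hq
    have h3 := (mem_PP G W v _).1 h1
    simp only at h2 h3
    subst h2
    exact ⟨w, Finset.mem_filter.2 ⟨h3.2.1, h3.2.2⟩, rfl⟩

theorem dist_two {n : ℕ} (G : SimpleGraph (Fin n)) (v w : Fin n) (h : G.dist v w = 2) :
    ∃ u, G.Adj v u ∧ G.Adj u w := by
  obtain ⟨p, hp⟩ := SimpleGraph.exists_walk_of_dist_ne_zero (G := G) (u := v) (v := w) (by omega)
  rw [h] at hp
  cases p with
  | nil => simp at hp
  | cons h1 p1 =>
    cases p1 with
    | nil => simp at hp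
    | cons h2 p2 =>
      cases p2 with
      | nil => exact ⟨_, h1, h2⟩
      | cons h3 p3 =>
        simp only [SimpleGraph.Walk.length_cons] at hp
        omega

theorem two_of {n : ℕ} (G : SimpleGraph (Fin n)) (v u w : Fin n) (h1 : G.Adj v u)
    (h2 : G.Adj u w) (h3 : w ≠ v) (h4 : ¬ G.Adj w v) : G.dist v w = 2 := by
  have h5 : G.dist v w ≤ 2 := by
    have := SimpleGraph.dist_le (SimpleGraph.Walk.cons h1 (SimpleGraph.Walk.cons h2 SimpleGraph.Walk.nil))
    simpa using this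
  have hr : G.Reachable v w := (h1.reachable).trans h2.reachable
  have h6 : G.dist v w ≠ 0 := by
    intro h0
    exact h3 ((hr.dist_eq_zero_iff.1 h0).symm)
  have h7 : G.dist v w ≠ 1 := by
    intro h1'
    exact h4 (SimpleGraph.dist_eq_one_iff_adj.1 h1').symm
  omega

theorem lower {n : ℕ} (G : SimpleGraph (Fin n)) (W : Finset (Fin n)) (v : Fin n) :
    two G W v ≤ walk2 G W v := by
  classical
  rw [walk2_eq]
  unfold two
  refine le_trans (Finset.card_le_card ?_) (Finset.card_image_le (s := PP G W v) (f := Prod.snd))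
  intro w hw
  rw [Finset.mem_filter] at hw
  obtain ⟨u, hu1, hu2⟩ := dist_two G v w hw.2
  exact Finset.mem_image.2 ⟨(u, w), (mem_PP G W v _).2 ⟨hu1, hw.1, hu2⟩, rfl⟩

theorem upper {n : ℕ} (G : SimpleGraph (Fin n)) (W : Finset (Fin n)) (v : Fin n) :
    walk2 G W v ≤ two G W v + nbr G univ v + TM G v := by
  classical
  rw [walk2_eq]
  set r : Fin n → Fin n := fun w =>
    if h : ∃ u, G.Adj v u ∧ G.Adj u w then Classical.choose h else v with hr
  have hrs : ∀ u w, G.Adj v u → G.Adj u w → G.Adj v (r w) ∧ G.Adj (r w) w := by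
    intro u w h1 h2
    have h : ∃ u, G.Adj v u ∧ G.Adj u w := ⟨u, h1, h2⟩
    have e : r w = Classical.choose h := by
      simp only [hr]
      rw [dif_pos h]
    rw [e]
    exact Classical.choose_spec h
  set P := PP G W v with hP
  have hsplit : P ⊆ (P.filter fun q => q.2 = v) ∪ ((P.filter fun q => G.Adj q.2 v) ∪
      ((P.filter fun q => q.2 ≠ v ∧ ¬ G.Adj q.2 v ∧ q.1 = r q.2) ∪
        (P.filter fun q => q.2 ≠ v ∧ ¬ G.Adj q.2 v ∧ q.1 ≠ r q.2))) := by
    intro q hq
    simp only [Finset.mem_union, Finset.mem_filter]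
    tauto
  have c1 : (P.filter fun q => q.2 = v).card ≤ nbr G univ v := by
    unfold nbr
    refine Finset.card_le_card_of_injOn Prod.fst ?_ ?_
    · intro q hq
      simp only [Finset.coe_filter, Set.mem_ofPred_eq] at hq
      have h := (mem_PP G W v q).1 hq.1
      simp only [Finset.coe_filter, Finset.mem_univ, true_and]
      exact h.1
    · intro q hq q' hq' h
      simp only [Finset.coe_filter, Set.mem_ofPred_eq] at hq hq'
      exact Prod.ext h (hq.2.trans hq'.2.symm)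
  have c2 : (P.filter fun q => G.Adj q.2 v).card ≤
      (univ.filter fun q : Fin n × Fin n => G.Adj v q.1 ∧ G.Adj q.1 q.2 ∧ G.Adj q.2 v).card := by
    refine Finset.card_le_card fun q hq => ?_
    rw [Finset.mem_filter] at hq
    have h := (mem_PP G W v q).1 hq.1
    exact Finset.mem_filter.2 ⟨Finset.mem_univ _, h.1, h.2.2, hq.2⟩
  have c3 : (P.filter fun q => q.2 ≠ v ∧ ¬ G.Adj q.2 v ∧ q.1 = r q.2).card ≤ two G W v := by
    unfold two
    refine Finset.card_le_card_of_injOn Prod.snd ?_ ?_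
    · intro q hq
      simp only [Finset.coe_filter, Set.mem_ofPred_eq] at hq
      have h := (mem_PP G W v q).1 hq.1
      simp only [Finset.coe_filter]
      exact ⟨h.2.1, two_of G v q.1 q.2 h.1 h.2.2 hq.2.1 hq.2.2.1⟩
    · intro q hq q' hq' h
      simp only [Finset.coe_filter, Set.mem_ofPred_eq] at hq hq'
      refine Prod.ext ?_ h
      rw [hq.2.2.2, hq'.2.2.2, h]
  have c4 : (P.filter fun q => q.2 ≠ v ∧ ¬ G.Adj q.2 v ∧ q.1 ≠ r q.2).card ≤
      (univ.filter fun q : Fin n × Fin n × Fin n => q.1 ≠ q.2.1 ∧ q.2.2 ≠ v ∧ G.Adj v q.1 ∧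
        G.Adj q.1 q.2.2 ∧ G.Adj q.2.2 q.2.1 ∧ G.Adj q.2.1 v).card := by
    refine Finset.card_le_card_of_injOn (fun q => (q.1, r q.2, q.2)) ?_ ?_
    · intro q hq
      simp only [Finset.coe_filter, Set.mem_ofPred_eq] at hq
      have h := (mem_PP G W v q).1 hq.1
      obtain ⟨h1, h2⟩ := hrs q.1 q.2 h.1 h.2.2
      simp only [Finset.coe_filter, Finset.mem_univ, true_and]
      exact ⟨hq.2.2.2, hq.2.1, h.1, h.2.2, h2.symm, h1.symm⟩
    · intro q _ q' _ h
      have h0 : (q.1, r q.2, q.2) = (q'.1, r q'.2, q'.2) := h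
      simp only [Prod.mk.injEq] at h0
      exact Prod.ext h0.1 h0.2.2
  have hcard := (Finset.card_le_card hsplit).trans (Finset.card_union_le _ _)
  have u1 := Finset.card_union_le (P.filter fun q => G.Adj q.2 v)
    ((P.filter fun q => q.2 ≠ v ∧ ¬ G.Adj q.2 v ∧ q.1 = r q.2) ∪
        (P.filter fun q => q.2 ≠ v ∧ ¬ G.Adj q.2 v ∧ q.1 ≠ r q.2))
  have u2 := Finset.card_union_le (P.filter fun q => q.2 ≠ v ∧ ¬ G.Adj q.2 v ∧ q.1 = r q.2)
        (P.filter fun q => q.2 ≠ v ∧ ¬ G.Adj q.2 v ∧ q.1 ≠ r q.2)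
  have hTM : TM G v = (univ.filter fun q : Fin n × Fin n => G.Adj v q.1 ∧ G.Adj q.1 q.2 ∧
      G.Adj q.2 v).card + (univ.filter fun q : Fin n × Fin n × Fin n => q.1 ≠ q.2.1 ∧ q.2.2 ≠ v ∧
        G.Adj v q.1 ∧ G.Adj q.1 q.2.2 ∧ G.Adj q.2.2 q.2.1 ∧ G.Adj q.2.1 v).card := by
    unfold TM
    congr!
  omega

theorem t : StC := fun _ G W v => ⟨lower G W v, upper G W v⟩

end Pool.Agent.K7.H78.MDDC
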