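import Pool.Agent.K7.H16.SG.Stm

set_option autoImplicit false

/-!
# Project SG, job F1: recursion for the number of preimages of the stack-sorting map
-/

namespace Pool.Agent.K7.H78.SGF1

open Finset Pool.Agent.K7.H16.SG

/-- the preimages -/
noncomputable def F (u : List ℕ) : Finset (List ℕ) := (words u.toFinset).filter (fun v => s v = u)

theorem mem_F (hW : StW) (u v : List ℕ) :
    v ∈ F u ↔ (v.Nodup ∧ v.toFinset = u.toFinset) ∧ s v = u := by
  unfold F
  rw [Finset.mem_filter, hW.1]

theorem t (hS : StS) (hW : StW) : StF1 := by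
  intro τ m hτ hm
  have hmτ : m ∉ τ := fun h => lt_irrefl _ (hm m h)
  have e : ∀ u, f u = (F u).card := fun u => rfl
  have hlen : ∀ u v : List ℕ, u.Nodup → v ∈ F u → v.length = u.length := by
    intro u v hu hv
    obtain ⟨⟨h1, h2⟩, h3⟩ := (mem_F hW u v).1 hv
    have h4 : v.Perm u := List.perm_of_nodup_nodup_toFinset_eq h1 hu h2
    exact h4.length_eq
  have hnd : (τ ++ [m]).Nodup := by
    rw [List.nodup_append]
    refine ⟨hτ, List.nodup_singleton m, ?_⟩
    intro a ha b hb hab
    rw [List.mem_singleton] at hb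
    subst hb
    subst hab
    exact hmτ ha
  have hmaps : ∀ v ∈ F (τ ++ [m]), v.idxOf m ∈ range (τ.length + 1) := by
    intro v hv
    have h1 := hlen _ v hnd hv
    have h2 : m ∈ v := by
      rw [← List.mem_toFinset, ((mem_F hW _ v).1 hv).1.2, List.mem_toFinset]
      simp
    rw [Finset.mem_range]
    have h3 := List.idxOf_lt_length_of_mem h2
    rw [h1, List.length_append, List.length_singleton] at h3
    exact h3
  rw [e, Finset.card_eq_sum_card_fiberwise (f := fun v => v.idxOf m) (s := F (τ ++ [m]))
    (t := range (τ.length + 1)) hmaps]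
  refine Finset.sum_congr rfl fun i hi => ?_
  have hi' : i ≤ τ.length := Nat.lt_succ_iff.1 (Finset.mem_range.1 hi)
  rw [e, e, ← Finset.card_product]
  symm
  have hdisj : ∀ a, a ∈ τ.take i → a ∈ τ.drop i → False := by
    intro a h1 h2
    have h3 := hτ
    rw [← List.take_append_drop i τ, List.nodup_append] at h3
    exact h3.2.2 a h1 a h2 rfl
  refine Finset.card_bij (fun p _ => p.1 ++ m :: p.2) ?_ ?_ ?_
  · rintro ⟨L, R⟩ hp
    rw [Finset.mem_product] at hp
    obtain ⟨⟨hL1, hL2⟩, hL3⟩ := (mem_F hW _ L).1 hp.1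
    obtain ⟨⟨hR1, hR2⟩, hR3⟩ := (mem_F hW _ R).1 hp.2
    have hLm : ∀ a ∈ L, a ∈ τ.take i := fun a ha => by
      rw [← List.mem_toFinset, ← hL2, List.mem_toFinset]; exact ha
    have hRm : ∀ a ∈ R, a ∈ τ.drop i := fun a ha => by
      rw [← List.mem_toFinset, ← hR2, List.mem_toFinset]; exact ha
    have hLτ : ∀ a ∈ L, a ∈ τ := fun a ha => List.mem_of_mem_take (hLm a ha)
    have hRτ : ∀ a ∈ R, a ∈ τ := fun a ha => List.mem_of_mem_drop (hRm a ha)
    have hall : ∀ a ∈ L ++ R, a < m := by
      intro a ha
      rcases List.mem_append.1 ha with h | h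
      · exact hm a (hLτ a h)
      · exact hm a (hRτ a h)
    have hmL : m ∉ L := fun h => hmτ (hLτ m h)
    have hmR : m ∉ R := fun h => hmτ (hRτ m h)
    rw [Finset.mem_filter, mem_F hW]
    refine ⟨⟨⟨?_, ?_⟩, ?_⟩, ?_⟩
    · rw [List.nodup_append]
      refine ⟨hL1, List.nodup_cons.2 ⟨hmR, hR1⟩, ?_⟩
      intro a ha b hb hab
      subst hab
      rcases List.mem_cons.1 hb with h | h
      · subst h
        exact hmL ha
      · exact hdisj a (hLm a ha) (hRm a h)
    · ext a
      rw [List.mem_toFinset, List.mem_toFinset, List.mem_append, List.mem_cons, List.mem_append,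
        List.mem_singleton]
      have hL4 : a ∈ L ↔ a ∈ τ.take i := by
        rw [← List.mem_toFinset, hL2, List.mem_toFinset]
      have hR4 : a ∈ R ↔ a ∈ τ.drop i := by
        rw [← List.mem_toFinset, hR2, List.mem_toFinset]
      have hτ4 : a ∈ τ ↔ a ∈ τ.take i ∨ a ∈ τ.drop i := by
        rw [← List.mem_append, List.take_append_drop]
      rw [hL4, hR4, hτ4]
      tauto
    · rw [hS.2.1 L R m hall, hL3, hR3, List.take_append_drop]
    · show (L ++ m :: R).idxOf m = i
      rw [List.idxOf_append_of_notMem hmL]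
      have h1 : L.length = i := by
        have h2 := hlen _ L (hτ.sublist (List.take_sublist i τ)) hp.1
        rw [h2, List.length_take]
        omega
      simp [h1]
  · rintro ⟨L, R⟩ hp ⟨L', R'⟩ hp' h
    rw [Finset.mem_product] at hp hp'
    have h1 := hlen _ L (hτ.sublist (List.take_sublist i τ)) hp.1
    have h2 := hlen _ L' (hτ.sublist (List.take_sublist i τ)) hp'.1
    have h3 := List.append_inj (show L ++ m :: R = L' ++ m :: R' from h) (h1.trans h2.symm)
    have h4 : R = R' := (List.cons.inj h3.2).2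
    rw [h3.1, h4]
  · intro v hv
    rw [Finset.mem_filter] at hv
    obtain ⟨hv1, hv2⟩ := hv
    obtain ⟨⟨h1, h2⟩, h3⟩ := (mem_F hW _ v).1 hv1
    have hmv : m ∈ v := by
      rw [← List.mem_toFinset, h2, List.mem_toFinset]
      simp
    obtain ⟨L, R, rfl⟩ := List.append_of_mem hmv
    rw [List.nodup_append, List.nodup_cons] at h1
    obtain ⟨hL, ⟨hmR, hR⟩, hd⟩ := h1
    have hmL : m ∉ L := fun h => hd m h m (List.mem_cons_self ..) rfl
    have hall : ∀ a ∈ L ++ R, a < m := by
      intro a ha
      have h4 : a ∈ (τ ++ [m]).toFinset := by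
        rw [← h2, List.mem_toFinset, List.mem_append, List.mem_cons]
        rcases List.mem_append.1 ha with h | h
        · exact Or.inl h
        · exact Or.inr (Or.inr h)
      have h5 : a ≠ m := by
        rintro rfl
        rcases List.mem_append.1 ha with h | h
        · exact hmL h
        · exact hmR h
      rw [List.mem_toFinset, List.mem_append, List.mem_singleton] at h4
      rcases h4 with h | h
      · exact hm a h
      · exact absurd h h5
    rw [hS.2.1 L R m hall] at h3
    have h6 : s L ++ s R = τ := List.append_cancel_right h3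
    have pL := hS.2.2 L hL
    have pR := hS.2.2 R hR
    have hidx : L.length = i := by
      have h7 : (L ++ m :: R).idxOf m = i := hv2
      rw [List.idxOf_append_of_notMem hmL] at h7
      simpa using h7
    have hsl : (s L).length = i := pL.length_eq.trans hidx
    have hsL : s L = τ.take i := by
      rw [← h6, List.take_left' hsl]
    have hsR : s R = τ.drop i := by
      rw [← h6, List.drop_left' hsl]
    refine ⟨(L, R), ?_, rfl⟩
    rw [Finset.mem_product]
    refine ⟨(mem_F hW _ L).2 ⟨⟨hL, ?_⟩, hsL⟩, (mem_F hW _ R).2 ⟨⟨hR, ?_⟩, hsR⟩⟩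
    · rw [← hsL]
      exact (List.toFinset_eq_of_perm _ _ pL).symm
    · rw [← hsR]
      exact (List.toFinset_eq_of_perm _ _ pR).symm

end Pool.Agent.K7.H78.SGF1
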