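import Pool.Agent.K7.H60.UP.Stm

set_option autoImplicit false

/-!
# Project UP, job REA (symmetrisation of the centre)
-/

namespace Pool.Agent.K7.H78.UPREA

open Pool.Agent.K7.H60.UP

theorem per_add (F : ℝ → ℝ) (hp : Function.Periodic F (2 * Real.pi)) (c : ℝ) :
    ∫ t in (0:ℝ)..(2 * Real.pi), F (t + c) = ∫ t in (0:ℝ)..(2 * Real.pi), F t := by
  rw [intervalIntegral.integral_comp_add_right]
  have h := hp.intervalIntegral_add_eq (0 + c) 0
  rw [show 0 + c + 2 * Real.pi = 2 * Real.pi + c by ring, zero_add (2 * Real.pi)] at h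
  exact h

theorem per_sub (F : ℝ → ℝ) (hp : Function.Periodic F (2 * Real.pi)) (c : ℝ) :
    ∫ t in (0:ℝ)..(2 * Real.pi), F (c - t) = ∫ t in (0:ℝ)..(2 * Real.pi), F t := by
  rw [intervalIntegral.integral_comp_sub_left]
  have h := hp.intervalIntegral_add_eq (c - 2 * Real.pi) 0
  rw [show c - 2 * Real.pi + 2 * Real.pi = c - 0 by ring, zero_add (2 * Real.pi)] at h
  exact h

theorem ph_cont (l : ℝ) (hl : 0 ≤ l) : Continuous (ph l) := by
  unfold ph
  exact (continuous_id.max continuous_const).rpow_const fun x => Or.inr hl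

/-- the integral of a sum over the four points `t, t + π, θ - t, θ - t + π` -/
theorem sum4 (F : ℝ → ℝ) (hF : Continuous F) (hp : Function.Periodic F (2 * Real.pi)) (θ : ℝ) :
    ∫ t in (0:ℝ)..(2 * Real.pi),
      (F t + F (t + Real.pi) + (F (θ - t) + F (θ - t + Real.pi))) =
      4 * ∫ t in (0:ℝ)..(2 * Real.pi), F t := by
  have i1 : IntervalIntegrable (fun t => F t) MeasureTheory.volume 0 (2 * Real.pi) :=
    hF.intervalIntegrable _ _
  have i2 : IntervalIntegrable (fun t => F (t + Real.pi)) MeasureTheory.volume 0 (2 * Real.pi) :=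
    (hF.comp (by fun_prop)).intervalIntegrable _ _
  have i3 : IntervalIntegrable (fun t => F (θ - t)) MeasureTheory.volume 0 (2 * Real.pi) :=
    (hF.comp (by fun_prop)).intervalIntegrable _ _
  have i4 : IntervalIntegrable (fun t => F (θ - t + Real.pi)) MeasureTheory.volume 0
      (2 * Real.pi) := (hF.comp (by fun_prop)).intervalIntegrable _ _
  rw [intervalIntegral.integral_add (i1.add i2) (i3.add i4), intervalIntegral.integral_add i1 i2,
    intervalIntegral.integral_add i3 i4]
  have e2 := per_add F hp Real.pi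
  have e3 := per_sub F hp θ
  have e4 : ∫ t in (0:ℝ)..(2 * Real.pi), F (θ - t + Real.pi) =
      ∫ t in (0:ℝ)..(2 * Real.pi), F t := by
    have h := per_sub F hp (θ + Real.pi)
    rw [← h]
    refine intervalIntegral.integral_congr fun t _ => ?_
    have h5 : θ - t + Real.pi = θ + Real.pi - t := by ring
    show F (θ - t + Real.pi) = F (θ + Real.pi - t)
    rw [h5]
  rw [e2, e3, e4]
  ring

theorem t (hS : StSup) : StRea := by
  intro l C B ρ θ hl hB
  have hc := ph_cont l (by linarith)
  set F : ℝ → ℝ := fun τ => ph l (C + 2 * B * Real.cos (2 * τ) + 2 * ρ * Real.cos (τ - θ)) with hFd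
  set G : ℝ → ℝ := fun τ => ph l (C + 2 * B * Real.cos (2 * τ) + 2 * ρ * Real.cos τ) with hGd
  have hF : Continuous F := hc.comp (by fun_prop)
  have hG : Continuous G := hc.comp (by fun_prop)
  have hFp : Function.Periodic F (2 * Real.pi) := by
    intro τ
    simp only [hFd]
    rw [show 2 * (τ + 2 * Real.pi) = 2 * τ + 2 * Real.pi + 2 * Real.pi by ring,
      Real.cos_add_two_pi, Real.cos_add_two_pi,
      show τ + 2 * Real.pi - θ = τ - θ + 2 * Real.pi by ring, Real.cos_add_two_pi]
  have hGp : Function.Periodic G (2 * Real.pi) := by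
    intro τ
    simp only [hGd]
    rw [show 2 * (τ + 2 * Real.pi) = 2 * τ + 2 * Real.pi + 2 * Real.pi by ring,
      Real.cos_add_two_pi, Real.cos_add_two_pi, Real.cos_add_two_pi]
  have key : ∀ t, F t + F (t + Real.pi) + (F (θ - t) + F (θ - t + Real.pi)) ≤
      G t + G (t + Real.pi) + (G (θ - t) + G (θ - t + Real.pi)) := by
    intro t
    set g1 := C + 2 * B * Real.cos (2 * t) with hg1
    set g2 := C + 2 * B * Real.cos (2 * (θ - t)) with hg2
    set k1 := 2 * ρ * Real.cos t with hk1
    set k2 := 2 * ρ * Real.cos (θ - t) with hk2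
    have F1 : F t = ph l (g1 + k2) := by
      simp only [hFd, hg1, hk2]
      rw [← Real.cos_neg (t - θ), neg_sub]
    have F2 : F (t + Real.pi) = ph l (g1 - k2) := by
      simp only [hFd, hg1, hk2]
      rw [show 2 * (t + Real.pi) = 2 * t + 2 * Real.pi by ring, Real.cos_add_two_pi,
        show t + Real.pi - θ = (t - θ) + Real.pi by ring, Real.cos_add_pi,
        ← Real.cos_neg (t - θ), neg_sub]
      congr 1
      ring
    have F3 : F (θ - t) = ph l (g2 + k1) := by
      simp only [hFd, hg2, hk1]
      rw [show θ - t - θ = -t by ring, Real.cos_neg]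
    have F4 : F (θ - t + Real.pi) = ph l (g2 - k1) := by
      simp only [hFd, hg2, hk1]
      rw [show 2 * (θ - t + Real.pi) = 2 * (θ - t) + 2 * Real.pi by ring, Real.cos_add_two_pi,
        show θ - t + Real.pi - θ = -t + Real.pi by ring, Real.cos_add_pi, Real.cos_neg]
      congr 1
      ring
    have G1 : G t = ph l (g1 + k1) := rfl
    have G2 : G (t + Real.pi) = ph l (g1 - k1) := by
      simp only [hGd, hg1, hk1]
      rw [show 2 * (t + Real.pi) = 2 * t + 2 * Real.pi by ring, Real.cos_add_two_pi,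
        Real.cos_add_pi]
      congr 1
      ring
    have G3 : G (θ - t) = ph l (g2 + k2) := rfl
    have G4 : G (θ - t + Real.pi) = ph l (g2 - k2) := by
      simp only [hGd, hg2, hk2]
      rw [show 2 * (θ - t + Real.pi) = 2 * (θ - t) + 2 * Real.pi by ring, Real.cos_add_two_pi,
        Real.cos_add_pi]
      congr 1
      ring
    rw [F1, F2, F3, F4, G1, G2, G3, G4]
    have hgg : g1 - g2 = 4 * B * (Real.cos t ^ 2 - Real.cos (θ - t) ^ 2) := by
      rw [hg1, hg2, Real.cos_two_mul, Real.cos_two_mul]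
      ring
    rcases le_total (Real.cos (θ - t) ^ 2) (Real.cos t ^ 2) with h | h
    · have h1 : g2 ≤ g1 := by
        have : 0 ≤ 4 * B * (Real.cos t ^ 2 - Real.cos (θ - t) ^ 2) := by
          apply mul_nonneg (by linarith) (by linarith)
        linarith
      have h2 : |k2| ≤ |k1| := by
        rw [hk1, hk2, abs_mul, abs_mul (2 * ρ)]
        exact mul_le_mul_of_nonneg_left (sq_le_sq.1 h) (abs_nonneg _)
      exact hS l g1 g2 k1 k2 hl h1 h2
    · have h1 : g1 ≤ g2 := by
        have : 0 ≤ 4 * B * (Real.cos (θ - t) ^ 2 - Real.cos t ^ 2) := by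
          apply mul_nonneg (by linarith) (by linarith)
        linarith
      have h2 : |k1| ≤ |k2| := by
        rw [hk1, hk2, abs_mul, abs_mul (2 * ρ)]
        exact mul_le_mul_of_nonneg_left (sq_le_sq.1 h) (abs_nonneg _)
      have h3 := hS l g2 g1 k2 k1 hl h1 h2
      linarith
  have hle : ∫ t in (0:ℝ)..(2 * Real.pi),
      (F t + F (t + Real.pi) + (F (θ - t) + F (θ - t + Real.pi))) ≤
      ∫ t in (0:ℝ)..(2 * Real.pi),
      (G t + G (t + Real.pi) + (G (θ - t) + G (θ - t + Real.pi))) := by
    refine intervalIntegral.integral_mono_on (by positivity) ?_ ?_ fun t _ => key t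
    · exact Continuous.intervalIntegrable (by fun_prop) _ _
    · exact Continuous.intervalIntegrable (by fun_prop) _ _
  rw [sum4 F hF hFp θ, sum4 G hG hGp θ] at hle
  linarith

end Pool.Agent.K7.H78.UPREA
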